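import Pool.Agent.Q44.SA.Stm

/-!
# Project SA, lemma DF: three steps forward and three steps back
-/

set_option autoImplicit false

namespace Pool.Agent.Q224.SA.DF

open MvPolynomial Pool.Agent.Q44.SA

theorem mat_smul {F : Type} [Field F] (T : Ten F) (s : F) (w : Fin 4 → F) : T.mat (s • w) = s • T.mat w := by
  ext b c
  simp only [Ten.mat, Matrix.of_apply, Matrix.smul_apply, Pi.smul_apply, smul_eq_mul, Finset.mul_sum]
  apply Finset.sum_congr rfl
  intro a _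
  ring

theorem adj_smul {F : Type} [Field F] (T : Ten F) (s : F) (w : Fin 4 → F) (a b : Fin 4) :
    (T.mat (s • w)).adjugate a b = s ^ 3 * (T.mat w).adjugate a b := by
  rw [mat_smul, Matrix.adjugate_smul, Matrix.smul_apply, smul_eq_mul, Fintype.card_fin]

theorem det_of_nxt {F : Type} [Field F] (T : Ten F) (w v : Fin 4 → F) (h : T.Nxt w v) : (T.mat w).det = 0 := by
  apply Matrix.exists_vecMul_eq_zero_iff.1
  refine ⟨v, h.2.1, ?_⟩
  funext c
  have h1 := h.2.2 c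
  rw [Finset.sum_comm] at h1
  rw [Matrix.vecMul, dotProduct, Pi.zero_apply, ← h1]
  apply Finset.sum_congr rfl
  intro b _
  simp only [Ten.mat, Matrix.of_apply, Finset.mul_sum]
  apply Finset.sum_congr rfl
  intro a _
  ring

theorem det_of_prv {F : Type} [Field F] (T : Ten F) (w v : Fin 4 → F) (h : T.rot.rot.Nxt v w) :
    (T.mat w).det = 0 := by
  apply Matrix.exists_mulVec_eq_zero_iff.1
  refine ⟨v, h.1, ?_⟩
  funext b
  have h1 := h.2.2 b
  rw [Matrix.mulVec, dotProduct, Pi.zero_apply, ← h1]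
  apply Finset.sum_congr rfl
  intro c _
  simp only [Ten.mat, Ten.rot, Matrix.of_apply, Finset.sum_mul]
  apply Finset.sum_congr rfl
  intro a _
  ring

theorem stepF (h : S_dC) {F : Type} [Field F] (T : Ten F) (hT : T.Rk) (w v : Fin 4 → F) (hn : T.Nxt w v) :
    ∃ t : Fin 4 → F, (∃ a, t a ≠ 0) ∧ ∀ s a b, (T.mat (s • w)).adjugate a b = s ^ 3 * t a * v b := by
  obtain ⟨-, -, -, -, h5, -⟩ := h F T hT w hn.1 (det_of_nxt T w v hn)
  obtain ⟨h6, a0, b0, h7⟩ := h5 v hn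
  choose t ht using h6
  refine ⟨t, ⟨a0, ?_⟩, ?_⟩
  · intro h8
    apply h7
    rw [ht, h8, zero_mul]
  · intro s a b
    rw [adj_smul, ht, mul_assoc]

theorem stepB (h : S_dC) {F : Type} [Field F] (T : Ten F) (hT : T.Rk) (w v : Fin 4 → F)
    (hn : T.rot.rot.Nxt v w) :
    ∃ t : Fin 4 → F, (∃ b, t b ≠ 0) ∧ ∀ s a b, (T.mat (s • w)).adjugate a b = s ^ 3 * t b * v a := by
  obtain ⟨-, -, -, -, -, h5⟩ := h F T hT w hn.2.1 (det_of_prv T w v hn)
  have h6 := h5 v hn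
  choose t ht using h6
  refine ⟨t, ?_, ?_⟩
  · by_contra hcon
    push Not at hcon
    apply hT w hn.2.1
    ext a b
    rw [ht, hcon b, zero_mul, Matrix.zero_apply]
  · intro s a b
    rw [adj_smul, ht, mul_assoc]

variable {K F : Type} [Field K] [Field F]

theorem eval_adj (σ : K →+* F) (A : Ten K) (x : Fin 4 → F) (a b : Fin 4) :
    eval₂ σ x (A.matP.adjugate a b) = ((A.map σ).mat x).adjugate a b := by
  have h1 := RingHom.map_adjugate (eval₂Hom σ x) A.matP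
  have h2 : (eval₂Hom σ x).mapMatrix A.matP = (A.map σ).mat x := by
    ext b c
    simp only [RingHom.mapMatrix_apply, Matrix.map_apply, Ten.matP, Ten.mat, Ten.map, Matrix.of_apply]
    rw [map_sum]
    simp only [map_mul, coe_eval₂Hom, eval₂_C, eval₂_X]
  rw [h2] at h1
  rw [← h1, RingHom.mapMatrix_apply, Matrix.map_apply, coe_eval₂Hom]

theorem eval_bind (σ : K →+* F) (x : Fin 4 → F) (g : Fin 4 → MvPolynomial (Fin 4) K) (f : MvPolynomial (Fin 4) K) :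
    eval₂ σ x (bind₁ g f) = eval₂ σ (fun i => eval₂ σ x (g i)) f := by
  have h1 := eval₂Hom_bind₁ σ x g f
  rw [coe_eval₂Hom, coe_eval₂Hom] at h1
  exact h1

theorem eval_fwd (σ : K →+* F) (A : Ten K) (x : Fin 4 → F) (l : Fin 4 × Fin 4 × Fin 4) (b : Fin 4) :
    eval₂ σ x (A.fwd l b) = ((A.map σ).rot.rot.mat (fun j => ((A.map σ).rot.mat
      (fun i => ((A.map σ).mat x).adjugate l.1 i)).adjugate l.2.1 j)).adjugate l.2.2 b := by
  unfold Ten.fwd Ten.row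
  rw [eval_bind, eval_bind, eval_adj]
  simp only [eval_adj]
  rfl

theorem eval_bwd (σ : K →+* F) (A : Ten K) (x : Fin 4 → F) (l : Fin 4 × Fin 4 × Fin 4) (a : Fin 4) :
    eval₂ σ x (A.bwd l a) = ((A.map σ).rot.mat (fun j => ((A.map σ).rot.rot.mat
      (fun i => ((A.map σ).mat x).adjugate i l.1)).adjugate j l.2.1)).adjugate a l.2.2 := by
  unfold Ten.bwd Ten.col
  rw [eval_bind, eval_bind, eval_adj]
  simp only [eval_adj]
  rfl

theorem dF (h : S_dC) : S_dF := by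
  intro K F _ _ σ A hA1 hA2 hA3 x u v y h1 h2 h3
  obtain ⟨t1, ⟨a1, ha1⟩, ht1⟩ := stepF h _ hA1 x u h1
  obtain ⟨t2, ⟨a2, ha2⟩, ht2⟩ := stepF h _ hA2 u v h2
  obtain ⟨t3, ⟨a3, ha3⟩, ht3⟩ := stepF h _ hA3 v y h3
  have key : ∀ (l : Fin 4 × Fin 4 × Fin 4) (b : Fin 4), eval₂ σ x (A.fwd l b) =
      ((t1 l.1) ^ 3 * t2 l.2.1) ^ 3 * t3 l.2.2 * y b := by
    intro l b
    rw [eval_fwd]
    have e1 : (fun i => ((A.map σ).mat x).adjugate l.1 i) = t1 l.1 • u := by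
      funext i
      have := ht1 1 l.1 i
      rw [one_smul, one_pow, one_mul] at this
      rw [this, Pi.smul_apply, smul_eq_mul]
    rw [e1]
    have e2 : (fun j => ((A.map σ).rot.mat (t1 l.1 • u)).adjugate l.2.1 j) = ((t1 l.1) ^ 3 * t2 l.2.1) • v := by
      funext j
      rw [ht2, Pi.smul_apply, smul_eq_mul]
    rw [e2, ht3]
  refine ⟨fun l => ⟨_, key l⟩, ?_⟩
  obtain ⟨b, hb⟩ := Function.ne_iff.1 h3.2.1
  refine ⟨(a1, a2, a3), b, ?_⟩
  rw [key]
  exact mul_ne_zero (mul_ne_zero (pow_ne_zero _ (mul_ne_zero (pow_ne_zero _ ha1) ha2)) ha3) hb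

theorem dB (h : S_dC) : S_dB := by
  intro K F _ _ σ A hA1 hA2 hA3 x u v y h1 h2 h3
  obtain ⟨t1, ⟨a1, ha1⟩, ht1⟩ := stepB h (A.map σ) hA1 x u h1
  obtain ⟨t2, ⟨a2, ha2⟩, ht2⟩ := stepB h (A.map σ).rot.rot hA3 u v h2
  obtain ⟨t3, ⟨a3, ha3⟩, ht3⟩ := stepB h (A.map σ).rot hA2 v y h3
  have key : ∀ (l : Fin 4 × Fin 4 × Fin 4) (a : Fin 4), eval₂ σ x (A.bwd l a) =
      ((t1 l.1) ^ 3 * t2 l.2.1) ^ 3 * t3 l.2.2 * y a := by
    intro l a
    rw [eval_bwd]
    have e1 : (fun i => ((A.map σ).mat x).adjugate i l.1) = t1 l.1 • u := by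
      funext i
      have := ht1 1 i l.1
      rw [one_smul, one_pow, one_mul] at this
      rw [this, Pi.smul_apply, smul_eq_mul]
    rw [e1]
    have e2 : (fun j => ((A.map σ).rot.rot.mat (t1 l.1 • u)).adjugate j l.2.1) =
        ((t1 l.1) ^ 3 * t2 l.2.1) • v := by
      funext j
      rw [ht2, Pi.smul_apply, smul_eq_mul]
    rw [e2, ht3]
  refine ⟨fun l => ⟨_, key l⟩, ?_⟩
  obtain ⟨b, hb⟩ := Function.ne_iff.1 h3.1
  refine ⟨(a1, a2, a3), b, ?_⟩
  rw [key]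
  exact mul_ne_zero (mul_ne_zero (pow_ne_zero _ (mul_ne_zero (pow_ne_zero _ ha1) ha2)) ha3) hb

end Pool.Agent.Q224.SA.DF
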