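import Pool.Agent.Q44.SA.Stm

/-!
# Project SA, lemma DG: the degrees of the forms of the Cayley-Oguiso automorphism
-/

set_option autoImplicit false

namespace Pool.Agent.Q224.SA.DG

open MvPolynomial Pool.Agent.Q44.SA

variable {K : Type} [Field K]

theorem matP_hom (A : Ten K) (b c : Fin 4) : (A.matP b c).IsHomogeneous 1 := by
  unfold Ten.matP
  rw [Matrix.of_apply]
  apply IsHomogeneous.sum
  intro a _
  exact IsHomogeneous.C_mul (isHomogeneous_X K a) _

theorem det_hom (M : Matrix (Fin 4) (Fin 4) (MvPolynomial (Fin 4) K))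
    (d : Fin 4 → ℕ) (h : ∀ b c, (M b c).IsHomogeneous (d b)) : M.det.IsHomogeneous (∑ b, d b) := by
  rw [Matrix.det_apply]
  apply IsHomogeneous.sum
  intro σ _
  have h1 : (∏ i, M (σ i) i).IsHomogeneous (∑ b, d b) := by
    rw [← Equiv.sum_comp σ d]
    exact IsHomogeneous.prod _ _ _ (fun i _ => h (σ i) i)
  rcases Int.units_eq_one_or (Equiv.Perm.sign σ) with h2 | h2
  · rw [h2, one_smul]
    exact h1
  · rw [h2, Units.neg_smul, one_smul]
    exact h1.neg

theorem det4 (A : Ten K) : A.matP.det.IsHomogeneous 4 :=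
  det_hom A.matP (fun _ => 1) (matP_hom A)

theorem adj3 (A : Ten K) (a b : Fin 4) : (A.matP.adjugate a b).IsHomogeneous 3 := by
  rw [Matrix.adjugate_apply]
  have h1 := det_hom (A.matP.updateRow b (Pi.single a 1)) (fun i => if i = b then 0 else 1) (by
    intro i c
    by_cases hi : i = b
    · rw [if_pos hi, hi, Matrix.updateRow_self]
      by_cases hc : c = a
      · rw [hc, Pi.single_eq_same]
        exact isHomogeneous_one _ _
      · rw [Pi.single_eq_of_ne hc]
        exact isHomogeneous_zero _ _ _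
    · rw [if_neg hi, Matrix.updateRow_ne hi]
      exact matP_hom A i c)
  have h2 : ∑ i : Fin 4, (if i = b then 0 else 1) = 3 := by
    clear h1
    revert b
    decide
  rw [h2] at h1
  exact h1

theorem bindHom {m d : ℕ} (g : Fin 4 → MvPolynomial (Fin 4) K) (hg : ∀ i, (g i).IsHomogeneous m)
    (f : MvPolynomial (Fin 4) K) (hf : f.IsHomogeneous d) : (bind₁ g f).IsHomogeneous (m * d) :=
  hf.aeval g hg

theorem homog_span (g : MvPolynomial (Fin 4) K) (m : ℕ) (hg : g.IsHomogeneous m) : Homog (Ideal.span {g}) := by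
  intro f hf d
  obtain ⟨h, rfl⟩ := Ideal.mem_span_singleton'.1 hf
  have h1 : h * g = ∑ i ∈ Finset.range (h.totalDegree + 1), homogeneousComponent i h * g := by
    rw [← Finset.sum_mul, sum_homogeneousComponent]
  rw [h1, map_sum]
  apply Ideal.sum_mem
  intro i _
  rw [homogeneousComponent_of_mem ((mem_homogeneousSubmodule _ _).2 ((homogeneousComponent_isHomogeneous i h).mul hg))]
  split_ifs
  · exact Ideal.mul_mem_left _ _ (Ideal.mem_span_singleton_self g)
  · exact Ideal.zero_mem _

theorem main : S_dh := by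
  intro K _ A
  refine ⟨det4 A, homog_span _ 4 (det4 A), ?_⟩
  intro l a
  constructor
  · exact bindHom (m := 3) (d := 9) _ (fun i => adj3 A _ _) _
      (bindHom (m := 3) (d := 3) _ (fun i => adj3 _ _ _) _ (adj3 _ _ _))
  · exact bindHom (m := 3) (d := 9) _ (fun i => adj3 A _ _) _
      (bindHom (m := 3) (d := 3) _ (fun i => adj3 _ _ _) _ (adj3 _ _ _))

end Pool.Agent.Q224.SA.DG
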