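import Pool.Agent.Q44.SA.Stm

/-!
# Project SA, lemma DM: the automorphism of Cayley and Oguiso of a determinantal quartic surface
-/

set_option autoImplicit false

namespace Pool.Agent.Q224.SA.DM

open MvPolynomial Pool.Agent.Q44.SA

section basics

variable {K F : Type} [Field K] [Field F]

theorem map_matP (σ : K →+* F) (A : Ten K) (x : Fin 4 → F) :
    (eval₂Hom σ x).mapMatrix A.matP = (A.map σ).mat x := by
  ext b c
  simp only [RingHom.mapMatrix_apply, Matrix.map_apply, Ten.matP, Ten.mat, Ten.map, Matrix.of_apply]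
  rw [map_sum]
  simp only [map_mul, coe_eval₂Hom, eval₂_C, eval₂_X]

theorem eval_det (σ : K →+* F) (A : Ten K) (x : Fin 4 → F) :
    eval₂ σ x A.matP.det = ((A.map σ).mat x).det := by
  have h1 := RingHom.map_det (eval₂Hom σ x) A.matP
  rw [map_matP, coe_eval₂Hom] at h1
  exact h1

theorem pt_iff (σ : K →+* F) (A : Ten K) (x : Fin 4 → F) :
    Pt σ (Ideal.span {A.matP.det}) x ↔ x ≠ 0 ∧ ((A.map σ).mat x).det = 0 := by
  rw [← eval_det]
  constructor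
  · intro h
    exact ⟨h.1, h.2 _ (Ideal.mem_span_singleton_self _)⟩
  · intro h
    refine ⟨h.1, ?_⟩
    intro f hf
    obtain ⟨q, rfl⟩ := Ideal.mem_span_singleton'.1 hf
    rw [eval₂_mul, h.2, mul_zero]

theorem nxt_smul (T : Ten F) (w v : Fin 4 → F) (s : F) (hs : s ≠ 0) (h : T.Nxt w v) : T.Nxt w (s • v) := by
  refine ⟨h.1, smul_ne_zero hs h.2.1, ?_⟩
  intro c
  have h1 := h.2.2 c
  have h2 : ∑ a, ∑ b, T a b c * w a * (s • v) b = s * ∑ a, ∑ b, T a b c * w a * v b := by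
    simp only [Pi.smul_apply, smul_eq_mul, Finset.mul_sum]
    apply Finset.sum_congr rfl
    intro a _
    apply Finset.sum_congr rfl
    intro b _
    ring
  rw [h2, h1, mul_zero]

theorem nxt_smul' (T : Ten F) (w v : Fin 4 → F) (s : F) (hs : s ≠ 0) (h : T.Nxt w v) : T.Nxt (s • w) v := by
  refine ⟨smul_ne_zero hs h.1, h.2.1, ?_⟩
  intro c
  have h1 := h.2.2 c
  have h2 : ∑ a, ∑ b, T a b c * (s • w) a * v b = s * ∑ a, ∑ b, T a b c * w a * v b := by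
    simp only [Pi.smul_apply, smul_eq_mul, Finset.mul_sum]
    apply Finset.sum_congr rfl
    intro a _
    apply Finset.sum_congr rfl
    intro b _
    ring
  rw [h2, h1, mul_zero]

theorem chainF (h : S_dC) (T : Ten F) (h1 : T.Rk) (h2 : T.rot.Rk) (h3 : T.rot.rot.Rk) (x : Fin 4 → F)
    (hx : x ≠ 0) (hd : (T.mat x).det = 0) :
    ∃ u v y, T.Nxt x u ∧ T.rot.Nxt u v ∧ T.rot.rot.Nxt v y ∧ (T.mat y).det = 0 := by
  obtain ⟨⟨u, hu⟩, -, a1, -⟩ := h F T h1 x hx hd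
  have b1 := (a1 u hu).1
  obtain ⟨⟨v, hv⟩, -, a2, -⟩ := h F T.rot h2 u hu.2.1 b1
  have b2 := (a2 v hv).1
  obtain ⟨⟨y, hy⟩, -, a3, -⟩ := h F T.rot.rot h3 v hv.2.1 b2
  exact ⟨u, v, y, hu, hv, hy, (a3 y hy).1⟩

theorem chainB (h : S_dC) (T : Ten F) (h1 : T.Rk) (h2 : T.rot.Rk) (h3 : T.rot.rot.Rk) (x : Fin 4 → F)
    (hx : x ≠ 0) (hd : (T.mat x).det = 0) :
    ∃ u v y, T.rot.rot.Nxt u x ∧ T.rot.Nxt v u ∧ T.Nxt y v ∧ (T.mat y).det = 0 := by
  obtain ⟨-, ⟨u, hu⟩, -, a1, -⟩ := h F T h1 x hx hd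
  have b1 := (a1 u hu).1
  obtain ⟨-, ⟨v, hv⟩, -, a2, -⟩ := h F T.rot.rot h3 u hu.1 b1
  have b2 := (a2 v hv).1
  obtain ⟨-, ⟨y, hy⟩, -, a3, -⟩ := h F T.rot h2 v hv.1 b2
  exact ⟨u, v, y, hu, hv, hy, (a3 y hy).1⟩

end basics

/-- the index set -/
noncomputable def e64 : Fin 64 ≃ Fin 4 × Fin 4 × Fin 4 :=
  (Fintype.equivFinOfCardEq (α := Fin 4 × Fin 4 × Fin 4) (n := 64) (by simp)).symm

/-- the relation of values: `y` is a multiple of the value of one of the tuples -/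
theorem rel_aux {F : Type} [Field F] (G : Fin 64 → Fin 4 → F) (y0 y : Fin 4 → F)
    (hv : ∀ l, ∃ t, ∀ b, G l b = t * y0 b) (l : Fin 64) (a : Fin 4) (ha : G l a ≠ 0) (c : F) (hc : c ≠ 0)
    (hy : ∀ b, y b = c * G l b) : ∃ s : F, s ≠ 0 ∧ y = s • y0 := by
  obtain ⟨t, ht⟩ := hv l
  refine ⟨c * t, mul_ne_zero hc ?_, ?_⟩
  · rintro rfl
    apply ha
    rw [ht, zero_mul]
  · funext b
    rw [hy, ht, Pi.smul_apply, smul_eq_mul, mul_assoc]

theorem rel_aux' {F : Type} [Field F] (G : Fin 64 → Fin 4 → F) (y : Fin 4 → F)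
    (hv : ∀ l, ∃ t, ∀ b, G l b = t * y b) (l : Fin 64) (a : Fin 4) (ha : G l a ≠ 0) :
    ∃ c : F, c ≠ 0 ∧ ∀ b, y b = c * G l b := by
  obtain ⟨t, ht⟩ := hv l
  have h0 : t ≠ 0 := by
    rintro rfl
    apply ha
    rw [ht, zero_mul]
  refine ⟨t⁻¹, inv_ne_zero h0, ?_⟩
  intro b
  rw [ht, ← mul_assoc, inv_mul_cancel₀ h0, one_mul]

theorem exF (h1 : S_dC) (h2 : S_mk) (h4 : S_dF) (h6 : S_dh) (K : Type) [Field K] (A : Ten K)
    (r1 : (A.map (algebraMap K (AlgebraicClosure K))).Rk) (r2 : (A.rot.map (algebraMap K (AlgebraicClosure K))).Rk)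
    (r3 : (A.rot.rot.map (algebraMap K (AlgebraicClosure K))).Rk) (hp : (Ideal.span {A.matP.det}).IsPrime) :
    ∃ φ : Mor (Ideal.span {A.matP.det}), ∀ (F : Type) [Field F] (σ : K →+* F), (A.map σ).Rk →
      (A.map σ).rot.Rk → (A.map σ).rot.rot.Rk → ∀ x y : Fin 4 → F, Pt σ (Ideal.span {A.matP.det}) x →
      (φ.Rel σ x y ↔ ∃ u v, (A.map σ).Nxt x u ∧ (A.map σ).rot.Nxt u v ∧ (A.map σ).rot.rot.Nxt v y) := by
  have key := h2 K 4 (Ideal.span {A.matP.det}) hp (h6 K A).2.1 64 (fun _ => 27) (fun l a => A.fwd (e64 l) a)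
    (fun _ => by norm_num) (fun l a => ((h6 K A).2.2 (e64 l) a).1) (by
      intro x hx
      have hx' := (pt_iff _ A x).1 hx
      obtain ⟨u, v, y, hu, hv, hy, hd⟩ := chainF h1 (A.map (algebraMap K (AlgebraicClosure K))) r1 r2 r3 x hx'.1 hx'.2
      obtain ⟨k1, l, b, k2⟩ := h4 K (AlgebraicClosure K) (algebraMap K (AlgebraicClosure K)) A r1 r2 r3 x u v y hu hv hy
      refine ⟨y, (pt_iff _ A y).2 ⟨hy.2.1, hd⟩, fun l => k1 (e64 l), e64.symm l, b, ?_⟩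
      rw [Equiv.apply_symm_apply]
      exact k2)
  obtain ⟨hb, hag, hin⟩ := key
  refine ⟨⟨64, fun _ => 27, fun l a => A.fwd (e64 l) a, fun _ => by norm_num,
    fun l a => ((h6 K A).2.2 (e64 l) a).1, hb, hag, hin⟩, ?_⟩
  intro F _ σ s1 s2 s3 x y hx
  have hx' := (pt_iff _ A x).1 hx
  constructor
  · rintro ⟨l, ⟨a, ha⟩, c, hc, hy⟩
    obtain ⟨u, v, y0, hu, hv, hy0, hd⟩ := chainF h1 (A.map σ) s1 s2 s3 x hx'.1 hx'.2
    obtain ⟨k1, -⟩ := h4 K F σ A s1 s2 s3 x u v y0 hu hv hy0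
    obtain ⟨s, hs, rfl⟩ := rel_aux (fun l b => eval₂ σ x (A.fwd (e64 l) b)) y0 y (fun l => k1 (e64 l)) l a ha c hc hy
    exact ⟨u, v, hu, hv, nxt_smul _ _ _ s hs hy0⟩
  · rintro ⟨u, v, hu, hv, hy⟩
    obtain ⟨k1, l, b, k2⟩ := h4 K F σ A s1 s2 s3 x u v y hu hv hy
    have k3 : eval₂ σ x (A.fwd (e64 (e64.symm l)) b) ≠ 0 := by
      rw [Equiv.apply_symm_apply]
      exact k2
    exact ⟨e64.symm l, ⟨b, k3⟩, rel_aux' (fun l b => eval₂ σ x (A.fwd (e64 l) b)) y (fun l => k1 (e64 l)) _ b k3⟩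

theorem exB (h1 : S_dC) (h2 : S_mk) (h5 : S_dB) (h6 : S_dh) (K : Type) [Field K] (A : Ten K)
    (r1 : (A.map (algebraMap K (AlgebraicClosure K))).Rk) (r2 : (A.rot.map (algebraMap K (AlgebraicClosure K))).Rk)
    (r3 : (A.rot.rot.map (algebraMap K (AlgebraicClosure K))).Rk) (hp : (Ideal.span {A.matP.det}).IsPrime) :
    ∃ ψ : Mor (Ideal.span {A.matP.det}), ∀ (F : Type) [Field F] (σ : K →+* F), (A.map σ).Rk →
      (A.map σ).rot.Rk → (A.map σ).rot.rot.Rk → ∀ x y : Fin 4 → F, Pt σ (Ideal.span {A.matP.det}) x →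
      (ψ.Rel σ x y ↔ ∃ u v, (A.map σ).rot.rot.Nxt u x ∧ (A.map σ).rot.Nxt v u ∧ (A.map σ).Nxt y v) := by
  have key := h2 K 4 (Ideal.span {A.matP.det}) hp (h6 K A).2.1 64 (fun _ => 27) (fun l a => A.bwd (e64 l) a)
    (fun _ => by norm_num) (fun l a => ((h6 K A).2.2 (e64 l) a).2) (by
      intro x hx
      have hx' := (pt_iff _ A x).1 hx
      obtain ⟨u, v, y, hu, hv, hy, hd⟩ := chainB h1 (A.map (algebraMap K (AlgebraicClosure K))) r1 r2 r3 x hx'.1 hx'.2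
      obtain ⟨k1, l, b, k2⟩ := h5 K (AlgebraicClosure K) (algebraMap K (AlgebraicClosure K)) A r1 r2 r3 x u v y hu hv hy
      refine ⟨y, (pt_iff _ A y).2 ⟨hy.1, hd⟩, fun l => k1 (e64 l), e64.symm l, b, ?_⟩
      rw [Equiv.apply_symm_apply]
      exact k2)
  obtain ⟨hb, hag, hin⟩ := key
  refine ⟨⟨64, fun _ => 27, fun l a => A.bwd (e64 l) a, fun _ => by norm_num,
    fun l a => ((h6 K A).2.2 (e64 l) a).2, hb, hag, hin⟩, ?_⟩
  intro F _ σ s1 s2 s3 x y hx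
  have hx' := (pt_iff _ A x).1 hx
  constructor
  · rintro ⟨l, ⟨a, ha⟩, c, hc, hy⟩
    obtain ⟨u, v, y0, hu, hv, hy0, hd⟩ := chainB h1 (A.map σ) s1 s2 s3 x hx'.1 hx'.2
    obtain ⟨k1, -⟩ := h5 K F σ A s1 s2 s3 x u v y0 hu hv hy0
    obtain ⟨s, hs, rfl⟩ := rel_aux (fun l b => eval₂ σ x (A.bwd (e64 l) b)) y0 y (fun l => k1 (e64 l)) l a ha c hc hy
    exact ⟨u, v, hu, hv, nxt_smul' _ _ _ s hs hy0⟩
  · rintro ⟨u, v, hu, hv, hy⟩
    obtain ⟨k1, l, b, k2⟩ := h5 K F σ A s1 s2 s3 x u v y hu hv hy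
    have k3 : eval₂ σ x (A.bwd (e64 (e64.symm l)) b) ≠ 0 := by
      rw [Equiv.apply_symm_apply]
      exact k2
    exact ⟨e64.symm l, ⟨b, k3⟩, rel_aux' (fun l b => eval₂ σ x (A.bwd (e64 l) b)) y (fun l => k1 (e64 l)) _ b k3⟩

theorem rk_desc {K F : Type} [Field K] [Field F] (σ : K →+* F) (A : Ten K) (h : (A.map σ).Rk) : A.Rk := by
  intro w hw h0
  apply h (fun i => σ (w i))
  · intro h1
    apply hw
    funext i
    have h2 := congrFun h1 i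
    rw [Pi.zero_apply] at h2 ⊢
    exact (map_eq_zero σ).1 h2
  · have h1 := RingHom.map_adjugate σ (A.mat w)
    have h2 : σ.mapMatrix (A.mat w) = (A.map σ).mat (fun i => σ (w i)) := by
      ext b c
      simp only [RingHom.mapMatrix_apply, Matrix.map_apply, Ten.mat, Ten.map, Matrix.of_apply]
      rw [map_sum]
      simp only [map_mul]
    rw [h2, h0, map_zero] at h1
    exact h1.symm

theorem main (h1 : S_dC) (h2 : S_mk) (h3 : S_inv) (h4 : S_dF) (h5 : S_dB) (h6 : S_dh) : S_dM := by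
  intro K _ A r1 r2 r3 hp
  obtain ⟨φ, hφ⟩ := exF h1 h2 h4 h6 K A r1 r2 r3 hp
  obtain ⟨ψ, hψ⟩ := exB h1 h2 h5 h6 K A r1 r2 r3 hp
  have hφ' := hφ (AlgebraicClosure K) (algebraMap K (AlgebraicClosure K)) r1 r2 r3
  have hψ' := hψ (AlgebraicClosure K) (algebraMap K (AlgebraicClosure K)) r1 r2 r3
  have q1 : A.Rk := rk_desc _ A r1
  have q2 : A.rot.Rk := rk_desc _ A.rot r2
  have q3 : A.rot.rot.Rk := rk_desc _ A.rot.rot r3
  have hdet : ∀ T : Ten (AlgebraicClosure K), ∀ w v : Fin 4 → AlgebraicClosure K, T.Nxt w v →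
      (T.mat w).det = 0 := by
    intro T w v h
    apply Matrix.exists_vecMul_eq_zero_iff.1
    refine ⟨v, h.2.1, ?_⟩
    funext c
    have e1 := h.2.2 c
    rw [Finset.sum_comm] at e1
    rw [Matrix.vecMul, dotProduct, Pi.zero_apply, ← e1]
    apply Finset.sum_congr rfl
    intro b _
    simp only [Ten.mat, Matrix.of_apply, Finset.mul_sum]
    apply Finset.sum_congr rfl
    intro a _
    ring
  have hdet' : ∀ T : Ten (AlgebraicClosure K), ∀ w v : Fin 4 → AlgebraicClosure K, T.rot.rot.Nxt v w →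
      (T.mat w).det = 0 := by
    intro T w v h
    apply Matrix.exists_mulVec_eq_zero_iff.1
    refine ⟨v, h.1, ?_⟩
    funext b
    have e1 := h.2.2 b
    rw [Matrix.mulVec, dotProduct, Pi.zero_apply, ← e1]
    apply Finset.sum_congr rfl
    intro c _
    simp only [Ten.mat, Ten.rot, Matrix.of_apply, Finset.sum_mul]
    apply Finset.sum_congr rfl
    intro a _
    ring
  refine ⟨φ, ψ, ?_, ?_, ?_, ?_⟩
  · apply h3 K 4 _ hp (h6 K A).2.1 φ ψ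
    intro x y hx hxy
    obtain ⟨u, v, hu, hv, hy⟩ := (hφ' x y hx).1 hxy
    exact (hψ' y x ((pt_iff _ A y).2 ⟨hy.2.1, hdet' _ y v hy⟩)).2 ⟨v, u, hy, hv, hu⟩
  · apply h3 K 4 _ hp (h6 K A).2.1 ψ φ
    intro x y hx hxy
    obtain ⟨u, v, hu, hv, hy⟩ := (hψ' x y hx).1 hxy
    exact (hφ' y x ((pt_iff _ A y).2 ⟨hy.1, hdet _ y v hy⟩)).2 ⟨v, u, hy, hv, hu⟩
  · intro x y hx hxy
    exact (hφ K (RingHom.id K) q1 q2 q3 x y hx).1 hxy
  · intro x y hx hxy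
    exact (hψ K (RingHom.id K) q1 q2 q3 x y hx).1 hxy

end Pool.Agent.Q224.SA.DM
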