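import Pool.Agent.Q44.SA.Stm

/-!
# Project SA, lemma TR: the transcendence degree of a hypersurface
-/

set_option autoImplicit false

namespace Pool.Agent.Q224.SA.TR

open MvPolynomial Pool.Agent.Q44.SA

variable {K : Type} [Field K]

theorem exists_var (g : MvPolynomial (Fin 4) K) (hg : Irreducible g) : ∃ i, degreeOf i g ≠ 0 := by
  by_contra hcon
  push Not at hcon
  have h1 : g.vars = ∅ := by
    rw [Finset.eq_empty_iff_forall_notMem]
    intro i hi
    rw [vars_def, Multiset.mem_toFinset] at hi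
    have h2 := hcon i
    rw [degreeOf_def, Multiset.count_eq_zero] at h2
    exact h2 hi
  rw [vars_eq_empty_iff_eq_C] at h1
  by_cases h2 : coeff 0 g = 0
  · rw [h2, map_zero] at h1
    exact hg.ne_zero h1
  · apply hg.not_isUnit
    rw [h1]
    exact (isUnit_iff_ne_zero.2 h2).map C

theorem indep (g : MvPolynomial (Fin 4) K) (hg : Irreducible g) (i : Fin 4) (hi : degreeOf i g ≠ 0) :
    AlgebraicIndependent K (fun j : Fin 3 => Ideal.Quotient.mk (Ideal.span {g}) (X (i.succAbove j))) := by
  rw [algebraicIndependent_iff]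
  intro p hp
  have h1 : (aeval (fun j : Fin 3 => Ideal.Quotient.mk (Ideal.span {g}) (X (i.succAbove j))) :
      MvPolynomial (Fin 3) K →ₐ[K] _) = (Ideal.Quotient.mkₐ K (Ideal.span {g})).comp (rename i.succAbove) := by
    apply MvPolynomial.algHom_ext
    intro j
    rw [aeval_X, AlgHom.comp_apply, rename_X, Ideal.Quotient.mkₐ_eq_mk]
  rw [h1, AlgHom.comp_apply, Ideal.Quotient.mkₐ_eq_mk, Ideal.Quotient.eq_zero_iff_mem,
    Ideal.mem_span_singleton] at hp
  obtain ⟨h, hh⟩ := hp
  by_contra hne
  have h2 : rename i.succAbove p ≠ 0 := by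
    intro h0
    exact hne (rename_injective _ (Fin.succAbove_right_injective) (by rw [h0, map_zero]))
  have h3 : h ≠ 0 := by
    rintro rfl
    rw [mul_zero] at hh
    exact h2 hh
  have h4 : degreeOf i (rename i.succAbove p) = degreeOf i g + degreeOf i h := by
    rw [hh]
    exact degreeOf_mul_eq hg.ne_zero h3
  have h5 : degreeOf i (rename i.succAbove p) = 0 := by
    classical
    rw [degreeOf_def, Multiset.count_eq_zero]
    intro h6
    have h7 : i ∈ (rename i.succAbove p).vars := by
      rw [vars_def, Multiset.mem_toFinset]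
      exact h6
    have h8 := vars_rename i.succAbove p h7
    rw [Finset.mem_image] at h8
    obtain ⟨j, -, hj⟩ := h8
    exact Fin.succAbove_ne i j hj
  rw [h5] at h4
  omega

theorem lt_four (g : MvPolynomial (Fin 4) K) (hg : Irreducible g) :
    Algebra.trdeg K (MvPolynomial (Fin 4) K ⧸ Ideal.span {g}) < 4 := by
  have hprime : (Ideal.span {g}).IsPrime := (Ideal.span_singleton_prime hg.ne_zero).2 hg.prime
  by_contra hcon
  rw [not_lt] at hcon
  let x : Fin 4 → MvPolynomial (Fin 4) K ⧸ Ideal.span {g} := fun j => Ideal.Quotient.mk (Ideal.span {g}) (X j)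
  have hx : ∀ p : MvPolynomial (Fin 4) K, aeval x p = Ideal.Quotient.mk (Ideal.span {g}) p := by
    intro p
    have h1 : (aeval x : MvPolynomial (Fin 4) K →ₐ[K] _) = Ideal.Quotient.mkₐ K (Ideal.span {g}) := by
      apply MvPolynomial.algHom_ext
      intro j
      rw [aeval_X, Ideal.Quotient.mkₐ_eq_mk]
    rw [h1, Ideal.Quotient.mkₐ_eq_mk]
  have halg : Algebra.IsAlgebraic (Algebra.adjoin K (Set.range x)) (MvPolynomial (Fin 4) K ⧸ Ideal.span {g}) := by
    constructor
    intro r
    obtain ⟨p, rfl⟩ := Ideal.Quotient.mk_surjective r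
    have h1 : Ideal.Quotient.mk (Ideal.span {g}) p ∈ Algebra.adjoin K (Set.range x) := by
      rw [← hx, Algebra.adjoin_range_eq_range_aeval]
      exact ⟨p, rfl⟩
    exact isAlgebraic_algebraMap (⟨_, h1⟩ : Algebra.adjoin K (Set.range x))
  have h2 : IsTranscendenceBasis K x := by
    apply Algebra.IsAlgebraic.isTranscendenceBasis_of_le_trdeg_of_finite
    rw [Cardinal.mk_fin]
    exact_mod_cast hcon
  have h3 := algebraicIndependent_iff.1 h2.1 g (by
    rw [hx, Ideal.Quotient.eq_zero_iff_mem]
    exact Ideal.mem_span_singleton_self g)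
  exact hg.ne_zero h3

theorem main : S_tr := by
  intro K _ g hg
  have hprime : (Ideal.span {g}).IsPrime := (Ideal.span_singleton_prime hg.ne_zero).2 hg.prime
  obtain ⟨i, hi⟩ := exists_var g hg
  have h1 := (indep g hg i hi).cardinalMk_le_trdeg
  rw [Cardinal.mk_fin] at h1
  have h2 := lt_four g hg
  have h3 : Algebra.trdeg K (MvPolynomial (Fin 4) K ⧸ Ideal.span {g}) < Cardinal.aleph0 :=
    h2.trans (by exact_mod_cast Cardinal.nat_lt_aleph0 4)
  obtain ⟨m, hm⟩ := Cardinal.lt_aleph0.1 h3
  rw [hm] at h1 h2 ⊢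
  have h4 : 3 ≤ m := by exact_mod_cast h1
  have h5 : m < 4 := by exact_mod_cast h2
  have h6 : m = 3 := by omega
  rw [h6]
  norm_num

end Pool.Agent.Q224.SA.TR
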